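import Mathlib
import Pool.Agent.H805R3.CircMain

/-!
The circular maximal operator on the plane is not of restricted weak type (2,2).

The proof tests the operator on a Besicovitch set shrunk by a factor `ε` (all of whose thin
`ε × ε²` rectangles are tangent to circles with centres at distance about one).
The definition of the operator, `Pool.Agent.H805R3.Circ.circMax`, is in
`Pool/Agent/H805R3/CircDef.lean`.
-/

set_option autoImplicit false

open MeasureTheory Set
open scoped ENNReal NNReal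

namespace Pool.Agent.Results.MP_0c3b5b_an.NotRestrictedWeak

open Pool.Agent.H805R3.Circ

/-- `T` is of restricted weak type `(2,2)`: there is `C < ∞` such that
`|{x : T χ_E(x) > λ}| ≤ C λ⁻² |E|` for all measurable `E` with `|E| < ∞` and all `λ > 0`. -/
def RestrictedWeakType22 (T : (ℝ × ℝ → ℂ) → ℝ × ℝ → ℝ≥0∞) : Prop :=
  ∃ C : ℝ≥0, ∀ E : Set (ℝ × ℝ), MeasurableSet E → volume E < ⊤ → ∀ lam : ℝ, 0 < lam →
    volume {x : ℝ × ℝ | ENNReal.ofReal lam < T (E.indicator fun _ => 1) x} ≤
      C * ENNReal.ofReal (lam⁻¹ ^ 2) * volume E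

/-- The circular maximal operator
`f ↦ sup_{r>0} (1/2π) ∫_0^{2π} |f(x + r (cos θ, sin θ))| dθ` on the plane is not of restricted weak
type `(2,2)`. -/
theorem result : ¬ RestrictedWeakType22 circMax := by
  rintro ⟨C, hC⟩
  obtain ⟨n, hn⟩ := exists_nat_gt (21600 * (C:ℝ))
  set B : ℕ := n + 2 with hBdef
  have hB : 0 < B := by omega
  have hBr : (0:ℝ) < (B:ℝ) := by exact_mod_cast hB
  set ε : ℝ := 1 / (B:ℝ)^B with hε
  have hε0 : 0 < ε := by positivity
  have hB1 : (1:ℝ) ≤ (B:ℝ) := by exact_mod_cast hB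
  have hε1 : ε ≤ 1 := by
    rw [hε, div_le_one (by positivity)]
    exact one_le_pow₀ hB1
  have hvol := volume_setE hB hε
  have hfin : volume (setE B ε) < ⊤ := lt_of_le_of_lt hvol ENNReal.ofReal_lt_top
  have h := hC (setE B ε) (isOpen_setE B ε).measurableSet hfin (ε / 60) (by positivity)
  have hlow : (1 : ℝ≥0∞) ≤
      volume {x : ℝ × ℝ | ENNReal.ofReal (ε / 60) < circMax ((setE B ε).indicator fun _ => 1) x} := by
    calc (1 : ℝ≥0∞) = volume (Ioc (-1:ℝ) 0 ×ˢ Icc (1:ℝ) 2) := by
          rw [Measure.volume_eq_prod, Measure.prod_prod, Real.volume_Ioc, Real.volume_Icc]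
          norm_num
      _ ≤ _ := by
          apply measure_mono
          rintro p ⟨⟨h1, h2⟩, h3, h4⟩
          exact circMax_large hB hε0 hε1 h1 h2 h3 h4
  have hup : (C : ℝ≥0∞) * ENNReal.ofReal ((ε / 60)⁻¹ ^ 2) * volume (setE B ε) < 1 := by
    calc (C : ℝ≥0∞) * ENNReal.ofReal ((ε / 60)⁻¹ ^ 2) * volume (setE B ε)
        ≤ (C : ℝ≥0∞) * ENNReal.ofReal ((ε / 60)⁻¹ ^ 2) * ENNReal.ofReal (6 * ε^2 / B) := by
          gcongr
      _ = ENNReal.ofReal (C * ((ε / 60)⁻¹ ^ 2) * (6 * ε^2 / B)) := by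
          rw [ENNReal.ofReal_mul (by positivity), ENNReal.ofReal_mul (by positivity),
            ENNReal.ofReal_coe_nnreal]
      _ < 1 := by
          rw [← ENNReal.ofReal_one]
          apply (ENNReal.ofReal_lt_ofReal_iff one_pos).2
          have e1 : (C:ℝ) * ((ε / 60)⁻¹ ^ 2) * (6 * ε^2 / B) = 21600 * C / B := by
            field_simp
            ring
          rw [e1, div_lt_one hBr]
          calc 21600 * (C:ℝ) < n := hn
            _ ≤ B := by rw [hBdef]; push_cast; linarith
  exact absurd (hlow.trans h) (not_le.2 hup)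

end Pool.Agent.Results.MP_0c3b5b_an.NotRestrictedWeak
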